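import Pool.Agent.Run7.h543.DEP.Stm3

/-!
# Piece EXI (project DEQ): existence of the one-obstacle function
-/

set_option autoImplicit false
set_option linter.unusedSectionVars false

noncomputable section

namespace Run7.h222.DEP

open Finset Matrix Run7.h259.BEC Run7.h543.DEP

variable {V : Type} [Fintype V] [DecidableEq V]

theorem lap_apply (t : V → V → ℝ) (φ : V → ℝ) (x : V) :
    ∑ y, lap t x y * φ y = ∑ y, t x y * (φ x - φ y) := by
  unfold lap
  simp only [sub_mul, mul_sub, ite_mul, zero_mul]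
  rw [sum_sub_distrib, sum_sub_distrib, sum_ite_eq, if_pos (mem_univ x), sum_mul]

/-- the operator of the one-obstacle problem -/
def MM (t w : V → V → ℝ) (Hd : V → V → Prop) [DecidableRel Hd] (z : V) :
    (V → ℝ) →ₗ[ℝ] (V → ℝ) where
  toFun φ := fun x => if Hd x z then φ x else ∑ y, lap t x y * φ y + w x z / 2 * φ x
  map_add' φ ψ := by
    ext x
    simp only [Pi.add_apply]
    split_ifs
    · rfl
    · simp only [mul_add, sum_add_distrib]
      ring
  map_smul' c φ := by
    ext x
    simp only [Pi.smul_apply, smul_eq_mul, RingHom.id_apply]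
    split_ifs
    · rfl
    · rw [mul_add, mul_sum]
      congr 1
      · refine sum_congr rfl fun y _ => by ring
      · ring

theorem MM_apply (t w : V → V → ℝ) (Hd : V → V → Prop) [DecidableRel Hd] (z : V) (φ : V → ℝ)
    (x : V) : MM t w Hd z φ x =
      if Hd x z then φ x else ∑ y, lap t x y * φ y + w x z / 2 * φ x := rfl

theorem MM_inj (t w : V → V → ℝ) (Hd : V → V → Prop) [DecidableRel Hd] (D g : ℝ) (k : ℕ)
    (hg : 0 < g) (ht : IsHopping t D) (hgap : HasGapT t g) (hr : IsRep w Hd k) (z : V) :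
    Function.Injective (MM t w Hd z) := by
  rw [injective_iff_map_eq_zero]
  intro φ hφ
  have h1 : ∀ x, φ x * (∑ y, lap t x y * φ y + w x z / 2 * φ x) = 0 := by
    intro x
    have h := congrFun hφ x
    rw [MM_apply] at h
    by_cases hx : Hd x z
    · rw [if_pos hx] at h
      have h' : φ x = 0 := h
      rw [h', zero_mul]
    · rw [if_neg hx] at h
      rw [h]
      exact mul_zero _
  have h2 : ∑ x, ∑ y, lap t x y * φ x * φ y + ∑ x, w x z / 2 * φ x ^ 2 = 0 := by
    rw [← sum_add_distrib]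
    refine sum_eq_zero fun x _ => ?_
    rw [← h1 x, mul_add, mul_sum]
    congr 1
    · refine sum_congr rfl fun y _ => by ring
    · ring
  rw [lap_form ht.symm φ] at h2
  have h3 : 0 ≤ ∑ x, w x z / 2 * φ x ^ 2 :=
    sum_nonneg fun x _ => mul_nonneg (by have := hr.wnonneg x z; positivity) (sq_nonneg _)
  have h4 : 0 ≤ ∑ x, ∑ y, t x y * (φ y - φ x) ^ 2 / 2 :=
    sum_nonneg fun x _ => sum_nonneg fun y _ => by
      have := ht.nonneg x y
      positivity
  have h5 : ∑ x, ∑ y, t x y * (φ y - φ x) ^ 2 / 2 = 0 := by linarith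
  have hn : (0 : ℝ) < Fintype.card V := by
    have : 0 < Fintype.card V := Fintype.card_pos_iff.2 ⟨z⟩
    exact_mod_cast this
  set m : ℝ := (∑ x, φ x) / Fintype.card V with hm
  have h6 : ∑ x, (φ x - m) = 0 := by
    rw [sum_sub_distrib, sum_const, card_univ, nsmul_eq_mul, hm, mul_div_cancel₀ _ hn.ne', sub_self]
  have h7 := hgap (fun x => φ x - m) h6
  have h8 : ∑ x, ∑ y, t x y * ((φ y - m) - (φ x - m)) ^ 2 / 2 = 0 := by
    rw [← h5]
    refine sum_congr rfl fun x _ => sum_congr rfl fun y _ => ?_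
    rw [sub_sub_sub_cancel_right]
  rw [h8] at h7
  have h9 : 0 ≤ ∑ x, (φ x - m) ^ 2 := sum_nonneg fun x _ => sq_nonneg _
  have h10 : ∑ x, (φ x - m) ^ 2 = 0 := by
    refine le_antisymm ?_ h9
    by_contra hcon
    push Not at hcon
    have := mul_pos hg hcon
    linarith
  have h11 : ∀ x, φ x = m := by
    intro x
    have := (sum_eq_zero_iff_of_nonneg fun y _ => sq_nonneg (φ y - m)).1 h10 x (mem_univ x)
    have := pow_eq_zero_iff (two_ne_zero) |>.1 this
    linarith
  have h12 : φ z = 0 := by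
    have h := congrFun hφ z
    rw [MM_apply, if_pos (hr.hrefl z)] at h
    exact h
  ext x
  rw [h11 x, ← h11 z, h12]
  rfl

theorem t_EXI : S_EXI := by
  intro V _ _ t w Hd _ D g k hD hg hk ht hgap hr z
  have hinj := MM_inj t w Hd D g k hg ht hgap hr z
  have hsurj := LinearMap.injective_iff_surjective.1 hinj
  obtain ⟨φ₁, hφ₁⟩ := hsurj (fun x => if Hd x z then 0 else 1)
  have hh : ∀ x, Hd x z → φ₁ x = 0 := by
    intro x hx
    have h := congrFun hφ₁ x
    rw [MM_apply, if_pos hx] at h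
    simpa [hx] using h
  have hs : ∀ x, ¬ Hd x z → ∑ y, lap t x y * φ₁ y + w x z / 2 * φ₁ x = 1 := by
    intro x hx
    have h := congrFun hφ₁ x
    rw [MM_apply, if_neg hx] at h
    simpa [hx] using h
  have hV : (univ : Finset V).Nonempty := ⟨z, mem_univ z⟩
  have hpos : ∀ x, 0 ≤ φ₁ x := by
    obtain ⟨x₀, -, hx₀⟩ := exists_min_image univ φ₁ hV
    by_contra hcon
    push Not at hcon
    obtain ⟨x₁, hx₁⟩ := hcon
    have hneg : φ₁ x₀ < 0 := lt_of_le_of_lt (hx₀ x₁ (mem_univ _)) hx₁
    have hx : ¬ Hd x₀ z := fun h => by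
      rw [hh x₀ h] at hneg
      exact lt_irrefl _ hneg
    have h1 := hs x₀ hx
    rw [lap_apply] at h1
    have h2 : ∑ y, t x₀ y * (φ₁ x₀ - φ₁ y) ≤ 0 := by
      refine sum_nonpos fun y _ => mul_nonpos_of_nonneg_of_nonpos (ht.nonneg _ _) ?_
      have := hx₀ y (mem_univ y)
      linarith
    have h3 : w x₀ z / 2 * φ₁ x₀ ≤ 0 :=
      mul_nonpos_of_nonneg_of_nonpos (by have := hr.wnonneg x₀ z; positivity) hneg.le
    linarith
  have hn : (0 : ℝ) < Fintype.card V := by
    have : 0 < Fintype.card V := by omega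
    exact_mod_cast this
  have hsum : 0 < ∑ x, φ₁ x := by
    rcases (sum_nonneg fun x (_ : x ∈ (univ : Finset V)) => hpos x).lt_or_eq with h | h
    · exact h
    · exfalso
      have h0 : ∀ x, φ₁ x = 0 := fun x =>
        (sum_eq_zero_iff_of_nonneg fun y _ => hpos y).1 h.symm x (mem_univ x)
      have hex : ∃ y, ¬ Hd z y := by
        by_contra hcon
        push Not at hcon
        have h1 : (univ.filter fun y => Hd z y ∨ w z y ≠ 0) = univ := by
          refine filter_true_of_mem fun y _ => Or.inl (hcon y)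
        have h2 := hr.size z
        rw [h1, card_univ] at h2
        omega
      obtain ⟨y, hy⟩ := hex
      have hy' : ¬ Hd y z := fun h => hy (hr.hsymm _ _ h)
      have h1 := hs y hy'
      simp [h0] at h1
  set s : ℝ := ∑ x, φ₁ x with hsdef
  refine ⟨fun x => (Fintype.card V : ℝ) / s * φ₁ x, (Fintype.card V : ℝ) ^ 2 / s, ?_, ?_, ?_⟩
  · intro x hx
    rw [hh x hx, mul_zero]
  · rw [← mul_sum, ← hsdef, div_mul_cancel₀ _ hsum.ne']
  · intro x hx
    have h1 := hs x hx
    have h2 : ∑ y, lap t x y * ((Fintype.card V : ℝ) / s * φ₁ y) +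
        w x z / 2 * ((Fintype.card V : ℝ) / s * φ₁ x) =
        (Fintype.card V : ℝ) / s * (∑ y, lap t x y * φ₁ y + w x z / 2 * φ₁ x) := by
      rw [mul_add, mul_sum]
      congr 1
      · refine sum_congr rfl fun y _ => by ring
      · ring
    rw [h2, h1, mul_one]
    field_simp

end Run7.h222.DEP
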